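import Pool.Agent.Helper46.Pak.CB1

set_option autoImplicit false

/-! Claim B. -/

namespace Pool.Agent.Helper63.Pak

open IntermediateField

variable {Ω : Type} [Field Ω] [Algebra ℂ Ω] [CurveUniverse Ω]
variable {A B : RatFunc ℂ} {x x' y : ℤ → Ω}

namespace CB

/-- one level -/
theorem level (hPT : PTFacts Ω) (hA : 2 ≤ rdeg A) (hx : Tower A x) (n : ℕ) :
    ∃ M : ℕ, ∀ L : IntermediateField ℂ Ω, FF L → x 0 ∈ L → 0 ≤ chi L →
      0 ≤ chi (L ⊔ Cx x (n + 1 : ℕ)) → x 1 ∉ L → M < (Cx x 0).relfinrank L →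
      ∃ y : Ω, Transcendental ℂ y ∧ (ev A)^[n + 1] y = x 0 ∧ (ev A)^[n] y ≠ x 1 ∧
        0 ≤ chi (Cx x (n + 1 : ℕ) ⊔ ℂ⟮y⟯) := by
  have hA1 : 1 ≤ rdeg A := by omega
  set T : Set Ω := {y | ev (iter A (n + 1)) y = x 0} with hT
  have hTfin : T.Finite := finite_ev_eq (hx.trans 0) (rdeg_iter_pos hA1 _)
  set S : IntermediateField ℂ Ω := adjoin ℂ T with hS
  have hxn : x (n + 1 : ℕ) ∈ T := by
    have h1 := hx.ev_iter_eq hA1 0 (n + 1)
    rw [zero_add] at h1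
    exact h1
  have hxnS : x (n + 1 : ℕ) ∈ S := subset_adjoin ℂ _ hxn
  have hx0S : x 0 ∈ S := by
    have h1 : ev (iter A (n + 1)) (x (n + 1 : ℕ)) = x 0 := hxn
    rw [← h1]
    exact ev_mem hxnS
  have hSff : FF S := ff_of_fg (fg_adjoin_of_finite hTfin) (hx.trans 0) hx0S
  refine ⟨2 * (Cx x 0).relfinrank (Cx x (n + 1 : ℕ)) * (Cx x 0).relfinrank S,
    fun L hL hx0 hc0 hcn hx1 hM => ?_⟩
  have hCL : Cx x 0 ≤ L := adjoin_simple_le_iff.2 hx0
  have hCS : Cx x 0 ≤ S := adjoin_simple_le_iff.2 hx0S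
  set J : IntermediateField ℂ Ω := L ⊓ S with hJdef
  have hCJ : Cx x 0 ≤ J := le_inf hCL hCS
  have hJ : FF J := (hx.ff 0).of_le_of_le hL hCJ inf_le_left
  have hJL : J ≤ L := inf_le_left
  have hJS : J ≤ S := inf_le_right
  have hJalg : Algebra.IsAlgebraic J Ω := isAlgebraic_of_ff hJ
  set W : Set Ω := sfConj J (x (n + 1 : ℕ)) with hW
  have hWfin : W.Finite := sfConj_finite _
  set N : IntermediateField ℂ Ω := J ⊔ adjoin ℂ W with hNdef
  have hJN : J ≤ N := le_sup_left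
  have hN : FF N := hJ.sf_of_fg_le (fg_sup hJ.1 (fg_adjoin_of_finite hWfin)) hJN
  have hx0J : x 0 ∈ J := hCJ (mem_adjoin_simple_self ℂ _)
  have hWT : W ⊆ T := by
    rintro w ⟨g, hg, rfl⟩
    change ev (iter A (n + 1)) (g (x (n + 1 : ℕ))) = x 0
    rw [← ev_map]
    have h1 : ev (iter A (n + 1)) (x (n + 1 : ℕ)) = x 0 := hxn
    rw [h1, hg _ hx0J]
  have hNS : N ≤ S := sup_le hJS (adjoin.mono ℂ _ _ hWT)
  have hinf : L ⊓ N = J := le_antisymm (le_inf inf_le_left (inf_le_right.trans hNS))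
    (le_inf hJL hJN)
  have hgal : ∀ g : Ω ≃ₐ[ℂ] Ω, Fixes g J → ∀ z ∈ N, g z ∈ N := by
    intro g hg
    have h1 : N ≤ N.comap (g : Ω →ₐ[ℂ] Ω) := by
      refine sup_le ?_ (adjoin_le_iff.2 fun w hw => ?_)
      · intro w hw
        change g w ∈ N
        rw [hg w hw]
        exact hJN hw
      · change g w ∈ N
        exact (le_sup_right : adjoin ℂ W ≤ N) (subset_adjoin ℂ W (sfConj_apply hg hw))
    exact fun z hz => h1 hz
  set E : IntermediateField ℂ Ω := J ⊔ ℂ⟮x (n + 1 : ℕ)⟯ with hEdef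
  have hE : FF E := hJ.sup_adjoin _
  have hJE : J ≤ E := le_sup_left
  have hEN : E ≤ N := by
    refine sup_le hJN (adjoin_simple_le_iff.2 ?_)
    exact (le_sup_right : adjoin ℂ W ≤ N) (subset_adjoin ℂ W (mem_sfConj_self _ _))
  have hlcm : ∀ (v : Pt Ω) (m : ℕ), (∀ w, SameOn J w v → e w J E ∣ m) → e v J N ∣ m := by
    intro v m hm
    have h1 := e_sup_conj_dvd hPT hJ hm hWfin.toFinset (fun w hw => by
      rw [Set.Finite.mem_toFinset] at hw
      exact hw)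
    rwa [Set.Finite.coe_toFinset] at h1
  have hLE : L ⊔ E = L ⊔ Cx x (n + 1 : ℕ) := by
    rw [hEdef, ← sup_assoc, sup_eq_left.2 hJL]
  have hkappa : L.relfinrank (L ⊔ E) ≤ (Cx x 0).relfinrank (Cx x (n + 1 : ℕ)) := by
    have h1 := sf_relfinrank_sup_le (L := Cx x (n + 1 : ℕ)) hCL
      (hPT.relfinrank_pos (hx.ff 0) hL hCL)
    have h2 : Cx x 0 ⊔ Cx x (n + 1 : ℕ) = Cx x (n + 1 : ℕ) :=
      sup_eq_right.2 (hx.le' (by omega))
    rw [h2] at h1
    rw [hLE]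
    exact h1
  have hbig : 2 * L.relfinrank (L ⊔ E) * J.relfinrank N < J.relfinrank L := by
    by_contra hcon
    push Not at hcon
    have h1 := relfinrank_mul_relfinrank hCJ hJL
    have h2 := relfinrank_mul_relfinrank hCJ hJN
    have h3 := relfinrank_mul_relfinrank (hCJ.trans hJN) hNS
    have h4 : 0 < N.relfinrank S := hPT.relfinrank_pos hN hSff hNS
    have h5 : (Cx x 0).relfinrank N ≤ (Cx x 0).relfinrank S := by
      rw [← h3]
      exact Nat.le_mul_of_pos_right _ h4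
    apply absurd hM
    push Not
    calc (Cx x 0).relfinrank L = (Cx x 0).relfinrank J * J.relfinrank L := h1.symm
      _ ≤ (Cx x 0).relfinrank J * (2 * L.relfinrank (L ⊔ E) * J.relfinrank N) :=
          Nat.mul_le_mul_left _ hcon
      _ = 2 * L.relfinrank (L ⊔ E) * ((Cx x 0).relfinrank J * J.relfinrank N) := by ring
      _ = 2 * L.relfinrank (L ⊔ E) * (Cx x 0).relfinrank N := by rw [h2]
      _ ≤ 2 * (Cx x 0).relfinrank (Cx x (n + 1 : ℕ)) * (Cx x 0).relfinrank S :=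
          Nat.mul_le_mul (Nat.mul_le_mul_left _ hkappa) h5
  have hchiN : 0 ≤ chi N := chi_nonneg hPT hJ hL hN hE hJL hJN hJE hEN hinf hgal hlcm hc0
    (by rw [hLE]; exact hcn) hbig
  obtain ⟨g, hg, hgx⟩ := exists_moves hJ (fun h : x 1 ∈ J => hx1 (hJL h))
  have hgt : Transcendental ℂ (g (x (n + 1 : ℕ))) := (hx.map g).trans _
  have hxn1 := hx.iterate_eq 1 n
  have hxn0 := hx.iterate_eq 0 (n + 1)
  have e1 : (1 : ℤ) + (n : ℤ) = ((n + 1 : ℕ) : ℤ) := by push_cast; ring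
  rw [e1] at hxn1
  rw [zero_add] at hxn0
  have hmap : ∀ (k : ℕ) (z : Ω), (ev A)^[k] (g z) = g ((ev A)^[k] z) := by
    intro k z
    induction k with
    | zero => rfl
    | succ k ih => rw [Function.iterate_succ_apply', Function.iterate_succ_apply', ih, ev_map]
  refine ⟨g (x (n + 1 : ℕ)), hgt, ?_, ?_, ?_⟩
  · rw [hmap, hxn0, hg _ hx0J]
  · rw [hmap, hxn1]
    exact hgx
  · refine chi_nonneg_of_le hPT ((hx.ff _).sup_adjoin _) hN ?_ hchiN
    refine sup_le ?_ (adjoin_simple_le_iff.2 ?_)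
    · exact adjoin_simple_le_iff.2 (hEN ((le_sup_right : ℂ⟮x (n + 1 : ℕ)⟯ ≤ E)
        (mem_adjoin_simple_self ℂ _)))
    · exact (le_sup_right : adjoin ℂ W ≤ N) (subset_adjoin ℂ W ⟨g, hg, rfl⟩)

omit [CurveUniverse Ω] in
theorem iterate_mem (y : Ω) (k : ℕ) : (ev A)^[k] y ∈ ℂ⟮y⟯ := by
  induction k with
  | zero => exact mem_adjoin_simple_self ℂ y
  | succ k ih =>
    rw [Function.iterate_succ_apply']
    exact ev_mem ih

omit [CurveUniverse Ω] in
theorem iterate_transcendental (hA : 1 ≤ rdeg A) {y : Ω} (hy : Transcendental ℂ y) (k : ℕ) :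
    Transcendental ℂ ((ev A)^[k] y) := by
  induction k with
  | zero => exact hy
  | succ k ih =>
    rw [Function.iterate_succ_apply']
    exact transcendental_ev ih hA

/-- Koenig -/
theorem koenig (hPT : PTFacts Ω) (hA : 2 ≤ rdeg A) (hx : Tower A x)
    (h : ∀ n : ℕ, ∃ y : Ω, Transcendental ℂ y ∧ (ev A)^[n + 1] y = x 0 ∧ (ev A)^[n] y ≠ x 1 ∧
        0 ≤ chi (Cx x (n + 1 : ℕ) ⊔ ℂ⟮y⟯)) :
    ∃ x' : ℤ → Ω, Tower A x' ∧ x 0 = x' 0 ∧ Close x x' ∧ x 1 ≠ x' 1 := by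
  have hA1 : 1 ≤ rdeg A := by omega
  let F : ℕ → Type := fun n => {y : Ω // Transcendental ℂ y ∧ (ev A)^[n + 1] y = x 0 ∧
    (ev A)^[n] y ≠ x 1 ∧ 0 ≤ chi (Cx x (n + 1 : ℕ) ⊔ ℂ⟮y⟯)}
  have hne : ∀ n, Nonempty (F n) := fun n => by
    obtain ⟨y, hy⟩ := h n
    exact ⟨⟨y, hy⟩⟩
  have hfin : ∀ n, Finite (F n) := fun n => by
    have h1 : {y : Ω | Transcendental ℂ y ∧ (ev A)^[n + 1] y = x 0 ∧
        (ev A)^[n] y ≠ x 1 ∧ 0 ≤ chi (Cx x (n + 1 : ℕ) ⊔ ℂ⟮y⟯)}.Finite := by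
      refine (finite_ev_eq (hx.trans 0) (rdeg_iter_pos hA1 (n + 1))).subset ?_
      rintro y ⟨hy, hy2, _⟩
      change ev (iter A (n + 1)) y = x 0
      rw [ev_iter hy hA1, hy2]
    exact h1.to_subtype
  have hstep : ∀ {i j : ℕ} (_ : i ≤ j) (y : F j), Transcendental ℂ ((ev A)^[j - i] y.1) ∧
      (ev A)^[i + 1] ((ev A)^[j - i] y.1) = x 0 ∧ (ev A)^[i] ((ev A)^[j - i] y.1) ≠ x 1 ∧
      0 ≤ chi (Cx x (i + 1 : ℕ) ⊔ ℂ⟮(ev A)^[j - i] y.1⟯) := by
    intro i j hij y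
    obtain ⟨y, hy1, hy2, hy3, hy4⟩ := y
    refine ⟨iterate_transcendental hA1 hy1 _, ?_, ?_, ?_⟩
    · rw [← Function.iterate_add_apply]
      have e1 : i + 1 + (j - i) = j + 1 := by omega
      rw [e1]
      exact hy2
    · rw [← Function.iterate_add_apply]
      have e1 : i + (j - i) = j := by omega
      rw [e1]
      exact hy3
    · refine chi_nonneg_of_le hPT ((hx.ff _).sup_adjoin _) ((hx.ff _).sup_adjoin _) ?_ hy4
      exact sup_le_sup (hx.le' (by omega)) (adjoin_simple_le_iff.2 (iterate_mem y _))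
  let π : {i j : ℕ} → (hij : i ≤ j) → F j → F i := fun {i j} hij y =>
    ⟨(ev A)^[j - i] y.1, hstep hij y⟩
  have i0 : Finite (F 0) := hfin 0
  obtain ⟨f, hf⟩ := exists_seq_forall_proj_of_forall_finite (α := F) π
    (fun i a => Subtype.ext (by
      change (ev A)^[i - i] a.1 = a.1
      rw [Nat.sub_self]
      rfl))
    (fun i j k hij hjk a => Subtype.ext (by
      change (ev A)^[j - i] ((ev A)^[k - j] a.1) = (ev A)^[k - i] a.1
      rw [← Function.iterate_add_apply]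
      congr 1
      omega))
    (fun i a => Set.toFinite _)
  have hf' : ∀ i, ev A (f (i + 1)).1 = (f i).1 := by
    intro i
    have h1 := congrArg Subtype.val (hf (Nat.le_succ i))
    change (ev A)^[i + 1 - i] (f (i + 1)).1 = (f i).1 at h1
    rw [Nat.add_sub_cancel_left] at h1
    exact h1
  have hf0 : ev A (f 0).1 = x 0 := (f 0).2.2.1
  let x' : ℤ → Ω := fun n => if n ≤ 0 then x n else (f (n - 1).toNat).1
  have hx'1 : ∀ n : ℤ, n ≤ 0 → x' n = x n := fun n hn => if_pos hn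
  have hx'2 : ∀ n : ℕ, x' (n + 1 : ℕ) = (f n).1 := by
    intro n
    change (if ((n + 1 : ℕ) : ℤ) ≤ 0 then _ else _) = _
    rw [if_neg (by omega)]
    have e1 : (((n + 1 : ℕ) : ℤ) - 1).toNat = n := by omega
    rw [e1]
  refine ⟨x', ⟨?_, ?_⟩, (hx'1 0 le_rfl).symm, ?_, ?_⟩
  · intro n
    rcases le_or_gt n 0 with hn | hn
    · rw [hx'1 n hn]
      exact hx.trans n
    · obtain ⟨m, rfl⟩ : ∃ m : ℕ, n = (m + 1 : ℕ) := ⟨(n - 1).toNat, by omega⟩
      rw [hx'2]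
      exact (f m).2.1
  · intro n
    rcases lt_trichotomy n 0 with hn | hn | hn
    · rw [hx'1 n hn.le, hx'1 (n + 1) (by omega)]
      exact hx.step n
    · subst hn
      have h1 := hx'2 0
      rw [hx'1 0 le_rfl]
      change x' (0 + 1) = (f 0).1 at h1
      rw [h1, hf0]
    · obtain ⟨m, rfl⟩ : ∃ m : ℕ, n = (m + 1 : ℕ) := ⟨(n - 1).toNat, by omega⟩
      have h1 := hx'2 (m + 1)
      have e1 : ((m + 1 : ℕ) : ℤ) + 1 = ((m + 1 + 1 : ℕ) : ℤ) := by push_cast; ring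
      rw [e1, h1, hx'2, hf']
  · intro n
    rcases le_or_gt n 0 with hn | hn
    · have h1 : Cx x' n = Cx x n := by
        change ℂ⟮x' n⟯ = ℂ⟮x n⟯
        rw [hx'1 n hn]
      rw [h1, sup_idem, hPT.chi_adjoin (hx.trans n)]
      norm_num
    · obtain ⟨m, rfl⟩ : ∃ m : ℕ, n = (m + 1 : ℕ) := ⟨(n - 1).toNat, by omega⟩
      have h1 : Cx x' (m + 1 : ℕ) = ℂ⟮(f m).1⟯ := by
        change ℂ⟮x' (m + 1 : ℕ)⟯ = _
        rw [hx'2]
      rw [h1]
      exact (f m).2.2.2.2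
  · have h1 := hx'2 0
    change x' 1 = (f 0).1 at h1
    rw [h1]
    exact fun h2 => (f 0).2.2.2.1 h2.symm

end CB

theorem claimB_of_rigidU (hPT : PTFacts Ω) (hA : 2 ≤ rdeg A) (hU : RigidU Ω A) :
    ClaimB Ω A := by
  have hA1 : 1 ≤ rdeg A := by omega
  by_cases hex : ∃ x : ℤ → Ω, Tower A x
  · obtain ⟨x, hx⟩ := hex
    by_contra hcon
    unfold ClaimB at hcon
    push Not at hcon
    have h : ∀ n : ℕ, ∃ y : Ω, Transcendental ℂ y ∧ (ev A)^[n + 1] y = x 0 ∧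
        (ev A)^[n] y ≠ x 1 ∧ 0 ≤ chi (Cx x (n + 1 : ℕ) ⊔ ℂ⟮y⟯) := by
      intro n
      obtain ⟨M, hM⟩ := CB.level hPT hA hx n
      obtain ⟨z, hz, L, hL, hz0, hchi, hz1, hbig⟩ := hcon M
      obtain ⟨g, hg⟩ := hz.exists_conj hA1 hx
      have hmap : ∀ m : ℤ, mapF g (Cx z m) = Cx x m := by
        intro m
        rw [sf_mapF_adjoin_simple, hg]
      refine hM (mapF g L) (hL.map g) ?_ ?_ ?_ ?_ ?_
      · rw [← hg 0]
        exact apply_mem_mapF.2 hz0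
      · rw [hPT.chi_map g hL]
        have h1 := hchi 0
        have h2 : L ⊔ Cx z ((0 : ℕ) : ℤ) = L :=
          sup_eq_left.2 (adjoin_simple_le_iff.2 (by exact_mod_cast hz0))
        rwa [h2] at h1
      · have h1 := hPT.chi_map g (hL.sup (hz.ff (n + 1 : ℕ)))
        rw [sf_mapF_sup, hmap] at h1
        rw [h1]
        exact hchi (n + 1)
      · rw [← hg 1]
        exact fun h1 => hz1 (apply_mem_mapF.1 h1)
      · rw [← hmap 0, mapF, mapF, relfinrank_map_map]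
        exact hbig
    obtain ⟨x', hx', h0, hc, h1⟩ := CB.koenig hPT hA hx h
    exact h1 (hU x x' hx hx' h0 hc)
  · exact ⟨0, fun x hx => absurd ⟨x, hx⟩ hex⟩

end Pool.Agent.Helper63.Pak
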