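import Pool.Agent.Helper98.Pak.Conj

set_option autoImplicit false

/-! Claim B, part 1: linear disjointness, ramification in composita. -/

namespace Pool.Agent.Helper63.Pak

open IntermediateField

namespace CB

variable {Ω : Type} [Field Ω] [Algebra ℂ Ω] [CurveUniverse Ω]
variable {J L N E : IntermediateField ℂ Ω}

theorem isAlgebraic_of_ff {K : IntermediateField ℂ Ω} (hK : FF K) : Algebra.IsAlgebraic K Ω := by
  obtain ⟨t, ht, htt⟩ := hK.exists_transcendental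
  exact isAlgebraic_over_of_mem htt ht

theorem isAlgClosure_of_ff {K : IntermediateField ℂ Ω} (hK : FF K) : IsAlgClosure K Ω :=
  ⟨CurveUniverse.isAlgClosed, isAlgebraic_of_ff hK⟩

/-- an element outside `K` is moved by some automorphism fixing `K` -/
theorem exists_moves {K : IntermediateField ℂ Ω} (hK : FF K) {z : Ω} (hz : z ∉ K) :
    ∃ g : Ω ≃ₐ[ℂ] Ω, Fixes g K ∧ g z ≠ z := by
  have i1 := isAlgebraic_of_ff hK
  have i2 := isAlgClosure_of_ff hK
  have i3 : Normal K Ω := IsAlgClosure.normal _ _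
  have i4 : IsGalois K Ω := ⟨⟩
  by_contra hcon
  push Not at hcon
  apply hz
  have h1 : z ∈ (⊥ : IntermediateField K Ω) := by
    rw [InfiniteGalois.mem_bot_iff_fixed]
    intro f
    have h2 := hcon (f.restrictScalars ℂ) (fun w hw => f.commutes ⟨w, hw⟩)
    exact h2
  rw [IntermediateField.mem_bot] at h1
  obtain ⟨w, hw⟩ := h1
  rw [← hw]
  exact w.2

/-- linear disjointness from a Galois extension -/
theorem relfinrank_sup (hPT : PTFacts Ω) (hJ : FF J) (hL : FF L) (hN : FF N) (hJL : J ≤ L)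
    (hJN : J ≤ N) (hinf : L ⊓ N = J)
    (hgal : ∀ g : Ω ≃ₐ[ℂ] Ω, Fixes g J → ∀ z ∈ N, g z ∈ N) (hJE : J ≤ E) (hEN : E ≤ N) :
    J.relfinrank (L ⊔ E) = J.relfinrank L * J.relfinrank E := by
  have i1 := isAlgebraic_of_ff hJ
  have i2 := isAlgClosure_of_ff hJ
  have i3 : Normal J Ω := IsAlgClosure.normal _ _
  have i4 : Normal J (extendScalars hJN) := by
    rw [normal_iff_forall_map_le']
    intro σ
    rintro _ ⟨z, hz, rfl⟩
    exact hgal (σ.restrictScalars ℂ) (fun w hw => σ.commutes ⟨w, hw⟩) z hz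
  have i5 : IsGalois J (extendScalars hJN) := ⟨⟩
  have h1 := hPT.relfinrank_pos hJ hN hJN
  have h2 := hPT.relfinrank_pos hJ hL hJL
  rw [relfinrank_eq_finrank_of_le hJN] at h1
  rw [relfinrank_eq_finrank_of_le hJL] at h2
  have i6 : FiniteDimensional J (extendScalars hJN) := Module.finite_of_finrank_pos h1
  have i7 : FiniteDimensional J (extendScalars hJL) := Module.finite_of_finrank_pos h2
  have h3 : extendScalars hJN ⊓ extendScalars hJL = ⊥ := by
    rw [extendScalars_inf]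
    have h4 : ∀ (M : IntermediateField ℂ Ω) (h : J ≤ M), M = J → extendScalars h = ⊥ := by
      intro M h hM
      subst hM
      exact extendScalars_self _
    exact h4 _ _ (by rw [inf_comm]; exact hinf)
  have h4 := (LinearDisjoint.of_inf_eq_bot h3).of_le_left
    (show extendScalars hJE ≤ extendScalars hJN from hEN)
  have h5 := h4.finrank_sup
  rw [extendScalars_sup] at h5
  have h6 : J.relfinrank (E ⊔ L) = J.relfinrank E * J.relfinrank L := by
    rw [relfinrank_eq_finrank_of_le (hJE.trans le_sup_left), relfinrank_eq_finrank_of_le hJE,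
      relfinrank_eq_finrank_of_le hJL]
    exact h5
  rw [sup_comm, h6, mul_comm]

/-- the ramification index of a Galois extension only depends on the place below -/
theorem e_eq_of_sameOn (hPT : PTFacts Ω) (hJ : FF J)
    (hgal : ∀ g : Ω ≃ₐ[ℂ] Ω, Fixes g J → ∀ z ∈ N, g z ∈ N) {v w : Pt Ω} (h : SameOn J v w) :
    e v J N = e w J N := by
  obtain ⟨g, hg, rfl⟩ := hPT.transitive hJ h
  have hsymm : Fixes g.symm J := by
    intro z hz
    have h1 := hg z hz
    conv_lhs => rw [← h1]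
    exact g.symm_apply_apply z
  have h1 : mapF g N = N := by
    ext z
    rw [mem_mapF]
    constructor
    · intro hz
      have h1 := hgal g hg _ hz
      rwa [g.apply_symm_apply] at h1
    · intro hz
      exact hgal g.symm hsymm _ hz
  have h2 := e_smul g v J N
  rw [h1, sf_mapF_of_fixes hg] at h2
  exact h2.symm

/-- conjugates of `J(z)` have the same ramification indices up to moving the point -/
theorem e_conj_dvd {z w : Ω} {v : Pt Ω} {m : ℕ}
    (hm : ∀ w : Pt Ω, SameOn J w v → e w J (J ⊔ ℂ⟮z⟯) ∣ m)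
    (hw : ∃ g : Ω ≃ₐ[ℂ] Ω, Fixes g J ∧ g z = w) : e v J (J ⊔ ℂ⟮w⟯) ∣ m := by
  obtain ⟨g, hg, rfl⟩ := hw
  have h1 := e_smul g (g⁻¹ • v) J (J ⊔ ℂ⟮z⟯)
  rw [smul_inv_smul, sf_mapF_sup, sf_mapF_of_fixes hg, sf_mapF_adjoin_simple] at h1
  rw [h1]
  apply hm
  have hsymm : Fixes g⁻¹ J := by
    intro z hz
    have h1 := hg z hz
    conv_lhs => rw [← h1]
    exact g.symm_apply_apply z
  exact SameOn.smul_of_fixes hsymm v

/-- the compositum of conjugates -/
theorem e_sup_conj_dvd (hPT : PTFacts Ω) (hJ : FF J) {z : Ω} {v : Pt Ω} {m : ℕ}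
    (hm : ∀ w : Pt Ω, SameOn J w v → e w J (J ⊔ ℂ⟮z⟯) ∣ m) (T : Finset Ω)
    (hT : ∀ w ∈ T, ∃ g : Ω ≃ₐ[ℂ] Ω, Fixes g J ∧ g z = w) :
    e v J (J ⊔ adjoin ℂ (T : Set Ω)) ∣ m := by
  classical
  induction T using Finset.induction_on with
  | empty =>
    rw [Finset.coe_empty, adjoin_empty, sup_bot_eq, e_self]
    exact one_dvd m
  | insert w T _ ih =>
    have h1 : J ⊔ adjoin ℂ ((insert w T : Finset Ω) : Set Ω) =
        (J ⊔ ℂ⟮w⟯) ⊔ (J ⊔ adjoin ℂ (T : Set Ω)) := by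
      rw [Finset.coe_insert, Set.insert_eq, adjoin_union]
      exact sup_sup_distrib_left _ _ _
    have h2 : FF (J ⊔ adjoin ℂ (T : Set Ω)) :=
      hJ.sf_of_fg_le (fg_sup hJ.1 (fg_adjoin_of_finite T.finite_toSet)) le_sup_left
    rw [h1, hPT.e_sup v hJ (hJ.sup_adjoin w) h2 le_sup_left le_sup_left]
    exact Nat.lcm_dvd (e_conj_dvd hm (hT w (Finset.mem_insert_self _ _)))
      (ih fun u hu => hT u (Finset.mem_insert_of_mem hu))

omit [CurveUniverse Ω] in
/-- few bad places: they are below the ramified places of `L(z)/L` -/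
theorem bad_le (hPT : PTFacts Ω) (hJ : FF J) (hL : FF L) (hE : FF E) (hJL : J ≤ L)
    (hJE : J ≤ E)
    (hdeg : J.relfinrank (L ⊔ E) = J.relfinrank L * J.relfinrank E)
    (hlcm : ∀ (v : Pt Ω) (m : ℕ), (∀ w, SameOn J w v → e w J E ∣ m) → e v J N ∣ m) :
    {P : Pl L | ¬ e P.pt J N ∣ e P.pt J L}.Finite ∧
      {P : Pl L | ¬ e P.pt J N ∣ e P.pt J L}.ncard ≤ Ram L (L ⊔ E) := by
  have hLE : FF (L ⊔ E) := hL.sup hE
  have hfin := hPT.finite_ram hL hLE le_sup_left
  have hsub : {P : Pl L | ¬ e P.pt J N ∣ e P.pt J L} ⊆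
      (fun Q : Pl (L ⊔ E) => Pl.mk L Q.pt) '' {Q : Pl (L ⊔ E) | e Q.pt L (L ⊔ E) ≠ 1} := by
    intro P hP
    rw [Set.mem_ofPred_eq] at hP
    have h1 : ¬ ∀ w, SameOn J w P.pt → e w J E ∣ e P.pt J L := fun h => hP (hlcm _ _ h)
    push Not at h1
    obtain ⟨w, hw, hw2⟩ := h1
    obtain ⟨u, hu1, hu2⟩ := hPT.exists_joint hJ hL hE hJL hJE hdeg hw.symm
    refine ⟨Pl.mk _ u, ?_, ?_⟩
    · rw [Set.mem_ofPred_eq, hPT.e_congr hL hLE le_sup_left (Pl.sameOn_pt_mk _ u)]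
      intro h2
      apply hw2
      have h3 := hPT.e_sup u hJ hL hE hJL hJE
      rw [e_mul u hJL le_sup_left, h2, mul_one, hPT.e_congr hJ hL hJL hu1,
        hPT.e_congr hJ hE hJE hu2] at h3
      rw [h3]
      exact Nat.dvd_lcm_right _ _
    · change Pl.mk L (Pl.mk (L ⊔ E) u).pt = P
      rw [← Pl.mk_pt P, Pl.mk_eq_mk]
      exact ((Pl.sameOn_pt_mk (L ⊔ E) u).mono le_sup_left).trans hu1
  refine ⟨(hfin.image _).subset hsub, ?_⟩
  calc _ ≤ _ := Set.ncard_le_ncard hsub (hfin.image _)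
    _ ≤ _ := Set.ncard_image_le hfin
    _ ≤ _ := sf_ncard_ram_le hPT hL hLE le_sup_left

/-- ramification of `L N / L` sits over the bad places -/
theorem Ram_sup_le (hPT : PTFacts Ω) (hJ : FF J) (hL : FF L) (hN : FF N) (hJL : J ≤ L)
    (hJN : J ≤ N) (hgal : ∀ g : Ω ≃ₐ[ℂ] Ω, Fixes g J → ∀ z ∈ N, g z ∈ N)
    (hfin : {P : Pl L | ¬ e P.pt J N ∣ e P.pt J L}.Finite) :
    Ram L (L ⊔ N) ≤ {P : Pl L | ¬ e P.pt J N ∣ e P.pt J L}.ncard * L.relfinrank (L ⊔ N) := by
  classical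
  have hF : FF (L ⊔ N) := hL.sup hN
  have hLF : L ≤ L ⊔ N := le_sup_left
  have hfr := hPT.finite_ram hL hF hLF
  have hfo : ∀ v : Pt Ω, {P : Pl (L ⊔ N) | SameOn L P.pt v}.Finite := fun v =>
    hPT.finite_over v hL hF hLF
  have h1 : Ram L (L ⊔ N) = ∑ P ∈ hfr.toFinset, (e P.pt L (L ⊔ N) - 1) := by
    unfold Ram
    rw [finsum_eq_sum_of_support_subset]
    intro P hP
    rw [Function.mem_support] at hP
    rw [Set.Finite.coe_toFinset, Set.mem_ofPred_eq]
    intro h1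
    rw [h1] at hP
    exact hP rfl
  have hsub : hfr.toFinset ⊆ hfin.toFinset.biUnion (fun p : Pl L => (hfo p.pt).toFinset) := by
    intro P hP
    rw [Set.Finite.mem_toFinset, Set.mem_ofPred_eq] at hP
    rw [Finset.mem_biUnion]
    refine ⟨Pl.mk L P.pt, ?_, ?_⟩
    · rw [Set.Finite.mem_toFinset, Set.mem_ofPred_eq]
      intro hdvd
      apply hP
      have h2 : SameOn L (Pl.mk L P.pt).pt P.pt := Pl.sameOn_pt_mk L P.pt
      rw [hPT.e_congr hJ hL hJL h2, e_eq_of_sameOn hPT hJ hgal (h2.mono hJL)] at hdvd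
      have h3 := hPT.e_sup P.pt hJ hL hN hJL hJN
      rw [e_mul P.pt hJL hLF, Nat.lcm_eq_left hdvd] at h3
      exact Nat.eq_of_mul_eq_mul_left (hPT.e_pos P.pt hJ hL hJL) (h3.trans (mul_one _).symm)
    · rw [Set.Finite.mem_toFinset, Set.mem_ofPred_eq]
      exact (Pl.sameOn_pt_mk L P.pt).symm
  rw [h1]
  calc ∑ P ∈ hfr.toFinset, (e P.pt L (L ⊔ N) - 1)
      ≤ ∑ P ∈ hfin.toFinset.biUnion (fun p : Pl L => (hfo p.pt).toFinset),
          (e P.pt L (L ⊔ N) - 1) := Finset.sum_le_sum_of_subset hsub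
    _ ≤ ∑ p ∈ hfin.toFinset, ∑ P ∈ (hfo p.pt).toFinset, (e P.pt L (L ⊔ N) - 1) := by
        rw [Finset.sum_biUnion]
        intro p _ q _ hpq
        rw [Function.onFun, Finset.disjoint_left]
        intro P hP hP'
        rw [Set.Finite.mem_toFinset, Set.mem_ofPred_eq] at hP hP'
        apply hpq
        rw [← Pl.mk_pt p, ← Pl.mk_pt q, Pl.mk_eq_mk]
        exact hP.symm.trans hP'
    _ ≤ ∑ p ∈ hfin.toFinset, L.relfinrank (L ⊔ N) := by
        refine Finset.sum_le_sum fun p _ => ?_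
        rw [← hPT.sum_e p.pt hL hF hLF, finsum_mem_eq_finite_toFinset_sum _ (hfo p.pt)]
        exact Finset.sum_le_sum fun P _ => Nat.sub_le _ _
    _ = _ := by
        rw [Finset.sum_const, smul_eq_mul, Set.ncard_eq_toFinset_card _ hfin]

/-- the Galois closure has nonnegative Euler characteristic when the degree is large -/
theorem chi_nonneg (hPT : PTFacts Ω) (hJ : FF J) (hL : FF L) (hN : FF N) (hE : FF E) (hJL : J ≤ L)
    (hJN : J ≤ N) (hJE : J ≤ E) (hEN : E ≤ N) (hinf : L ⊓ N = J)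
    (hgal : ∀ g : Ω ≃ₐ[ℂ] Ω, Fixes g J → ∀ z ∈ N, g z ∈ N)
    (hlcm : ∀ (v : Pt Ω) (m : ℕ), (∀ w, SameOn J w v → e w J E ∣ m) → e v J N ∣ m)
    (hcL : 0 ≤ chi L) (hcE : 0 ≤ chi (L ⊔ E))
    (hbig : 2 * L.relfinrank (L ⊔ E) * J.relfinrank N < J.relfinrank L) : 0 ≤ chi N := by
  have hdegE := relfinrank_sup hPT hJ hL hN hJL hJN hinf hgal hJE hEN
  have hdegN := relfinrank_sup hPT hJ hL hN hJL hJN hinf hgal hJN le_rfl
  have hF : FF (L ⊔ N) := hL.sup hN
  have hbL : 0 < J.relfinrank L := hPT.relfinrank_pos hJ hL hJL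
  have hbN : 0 < J.relfinrank N := hPT.relfinrank_pos hJ hN hJN
  have hLN : L.relfinrank (L ⊔ N) = J.relfinrank N := by
    have h1 := relfinrank_mul_relfinrank hJL (le_sup_left : L ≤ L ⊔ N)
    rw [hdegN] at h1
    exact Nat.eq_of_mul_eq_mul_left hbL h1
  have hNL : N.relfinrank (L ⊔ N) = J.relfinrank L := by
    have h1 := relfinrank_mul_relfinrank hJN (le_sup_right : N ≤ L ⊔ N)
    rw [hdegN, mul_comm (J.relfinrank L)] at h1
    exact Nat.eq_of_mul_eq_mul_left hbN h1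
  obtain ⟨hfin, hbad⟩ := bad_le hPT hJ hL hE hJL hJE hdegE hlcm
  have hR := Ram_sup_le hPT hJ hL hN hJL hJN hgal hfin
  have c1 := hPT.chi_eq hL (hL.sup hE) le_sup_left
  have c2 := hPT.chi_eq hL hF le_sup_left
  have c3 := hPT.chi_eq hN hF le_sup_right
  have c4 := hPT.chi_le hL
  by_contra hneg
  push Not at hneg
  rw [hLN] at c2 hR
  rw [hNL] at c3
  have h1 : (Ram L (L ⊔ E) : ℤ) ≤ 2 * L.relfinrank (L ⊔ E) := by nlinarith
  have h2 : (Ram L (L ⊔ N) : ℤ) ≤ 2 * L.relfinrank (L ⊔ E) * J.relfinrank N := by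
    have h3 : (Ram L (L ⊔ N) : ℤ) ≤ (Ram L (L ⊔ E) : ℤ) * J.relfinrank N := by
      have h4 := hR.trans (Nat.mul_le_mul_right _ hbad)
      exact_mod_cast h4
    refine h3.trans (mul_le_mul_of_nonneg_right h1 ?_)
    positivity
  have h3 : (2 : ℤ) * L.relfinrank (L ⊔ E) * J.relfinrank N < J.relfinrank L := by
    exact_mod_cast hbig
  have h4 : (J.relfinrank N : ℤ) * chi L ≥ 0 := by positivity
  have h5 : (J.relfinrank L : ℤ) * chi N ≤ -(J.relfinrank L : ℤ) := by nlinarith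
  have h6 : (0 : ℤ) ≤ Ram N (L ⊔ N) := by positivity
  linarith

end CB

end Pool.Agent.Helper63.Pak
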