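import Pool.Agent.Helper46.Pak.PTBAux
import Pool.Agent.Helper37.Pak.PTA

/-! PT-B: restriction of points to function fields, orders, value index, fundamental equality. -/

namespace Pool.Agent.Helper63.Pak

open IntermediateField Pool.Agent.Helper11

variable {Ω : Type} [Field Ω] [Algebra ℂ Ω]

section

variable [CurveUniverse Ω]

omit [CurveUniverse Ω] in
theorem FF.exists_transcendental {K : IntermediateField ℂ Ω} (hK : FF K) :
    ∃ t ∈ K, Transcendental ℂ t := by
  by_contra hcon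
  push Not at hcon
  apply hK.2
  rw [eq_bot_iff]
  intro z hz
  have h1 := hcon z hz
  rw [IntermediateField.mem_bot]
  by_contra h2
  exact h1 (transcendental_of_not_mem h2)

theorem FF.isCurveField {K : IntermediateField ℂ Ω} (hK : FF K) : IsCurveField ℂ K := by
  obtain ⟨t, htK, ht⟩ := hK.exists_transcendental
  constructor
  · rw [IntermediateField.fg_top_iff]
    exact IntermediateField.essFiniteType_iff.2 hK.1
  · apply le_antisymm
    · have h1 := trdeg_le_of_injective K.val K.val.injective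
      have h2 := CurveUniverse.trdeg_eq (Ω := Ω)
      exact h1.trans h2.le
    · rw [Cardinal.one_le_iff_ne_zero, Ne, trdeg_eq_zero_iff]
      intro halg
      have h1 := halg.isAlgebraic (⟨t, htK⟩ : K)
      exact ht (h1.algHom K.val)

omit [CurveUniverse Ω] in
theorem relfinrank_adjoin_eq_finrank {K : IntermediateField ℂ Ω} (z : K) :
    ℂ⟮(z : Ω)⟯.relfinrank K = Module.finrank ℂ⟮z⟯ K := by
  have h1 := relfinrank_map_map (A := ℂ⟮z⟯) (B := ⊤) K.val
  rw [relfinrank_top_right] at h1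
  rw [← h1]
  congr 1
  · rw [adjoin_map, Set.image_singleton]
    rfl
  · rw [← AlgHom.fieldRange_eq_map, fieldRange_val]

theorem ff_relfinrank_adjoin_pos {K : IntermediateField ℂ Ω} (hK : FF K) {t : Ω} (htK : t ∈ K)
    (ht : Transcendental ℂ t) : 0 < ℂ⟮t⟯.relfinrank K := by
  have ht' : Transcendental ℂ (⟨t, htK⟩ : K) := fun h => ht (IsAlgebraic.algHom K.val h)
  have := finiteDimensional_adjoin hK.isCurveField ht'
  have h1 := relfinrank_adjoin_eq_finrank (⟨t, htK⟩ : K)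
  change ℂ⟮t⟯.relfinrank K = _ at h1
  rw [h1]
  exact Module.finrank_pos

theorem ff_relfinrank_pos {K K' : IntermediateField ℂ Ω} (hK : FF K) (hK' : FF K') (h : K ≤ K') :
    0 < K.relfinrank K' := by
  obtain ⟨t, htK, ht⟩ := hK.exists_transcendental
  have h1 : ℂ⟮t⟯.relfinrank K * K.relfinrank K' = ℂ⟮t⟯.relfinrank K' :=
    relfinrank_mul_relfinrank (adjoin_simple_le_iff.2 htK) h
  have h2 := ff_relfinrank_adjoin_pos hK' (h htK) ht
  rw [← h1] at h2
  exact Nat.pos_of_mul_pos_left h2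

/-- the inclusion as an algebra structure -/
noncomputable abbrev inclAlgebra {K K' : IntermediateField ℂ Ω} (h : K ≤ K') : Algebra K K' :=
  (IntermediateField.inclusion h).toRingHom.toAlgebra

omit [CurveUniverse Ω] in
theorem finrank_inclAlgebra {K K' : IntermediateField ℂ Ω} (h : K ≤ K') :
    letI := inclAlgebra h
    Module.finrank K K' = K.relfinrank K' := by
  let _ := inclAlgebra h
  rw [relfinrank_eq_finrank_of_le h]
  let e : K' ≃ₗ[K] extendScalars h :=
    { toFun := fun x => ⟨x.1, x.2⟩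
      invFun := fun x => ⟨x.1, x.2⟩
      map_add' := fun _ _ => rfl
      map_smul' := fun a x => rfl
      left_inv := fun _ => rfl
      right_inv := fun _ => rfl }
  exact e.finrank_eq

theorem finiteDimensional_inclAlgebra {K K' : IntermediateField ℂ Ω} (hK : FF K) (hK' : FF K')
    (h : K ≤ K') : letI := inclAlgebra h
    FiniteDimensional K K' := by
  let _ := inclAlgebra h
  apply FiniteDimensional.of_finrank_pos
  rw [finrank_inclAlgebra h]
  exact ff_relfinrank_pos hK hK' h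

theorem restr_ne_top {K : IntermediateField ℂ Ω} (hK : FF K) (v : Pt Ω) :
    v.ring.comap (algebraMap K Ω) ≠ ⊤ := by
  obtain ⟨t, htK, ht⟩ := hK.exists_transcendental
  intro h
  apply pt_not_adjoin_le v ht
  intro w hw
  have hwK : w ∈ K := (adjoin_simple_le_iff.2 htK) hw
  have h1 : (⟨w, hwK⟩ : K) ∈ v.ring.comap (algebraMap K Ω) := by rw [h]; trivial
  exact h1

/-- the place of the function field `K` induced by `v` -/
noncomputable def restr {K : IntermediateField ℂ Ω} (hK : FF K) (v : Pt Ω) : CurvePt ℂ K where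
  ring := v.ring.comap (algebraMap K Ω)
  const_mem c := v.const_mem c
  isDVR := by
    obtain ⟨P, hP⟩ := exists_curvePt_ring hK.isCurveField (v.ring.comap (algebraMap K Ω))
      (fun c => v.const_mem c) (restr_ne_top hK v)
    rw [← hP]
    exact P.isDVR

theorem mem_restr_ring {K : IntermediateField ℂ Ω} (hK : FF K) (v : Pt Ω) (z : K) :
    z ∈ (restr hK v).ring ↔ (z : Ω) ∈ v.ring := Iff.rfl

theorem restr_surjective {K : IntermediateField ℂ Ω} (hK : FF K) (P : CurvePt ℂ K) :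
    ∃ v : Pt Ω, restr hK v = P := by
  obtain ⟨t, ht0, ht⟩ := P.exists_ord_eq_one
  have htR : t ∈ P.ring := (P.mem_ring_iff ht0).2 (by omega)
  have htR' : t⁻¹ ∉ P.ring := by
    intro hcon
    rw [P.mem_ring_iff (inv_ne_zero ht0), P.ord_inv, ht] at hcon
    omega
  let A : Subring Ω := P.ring.toSubring.map (algebraMap K Ω)
  have hA : ∀ z : K, z ∈ P.ring → (z : Ω) ∈ A := fun z hz => ⟨z, hz, rfl⟩
  let I : Ideal A := Ideal.span {⟨(t : Ω), hA t htR⟩}
  have hIne : I ≠ ⊤ := by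
    intro h
    rw [Ideal.span_singleton_eq_top, isUnit_iff_exists_inv] at h
    obtain ⟨⟨b, ⟨b', hb', hbb⟩⟩, hb⟩ := h
    have h1 : (t : Ω) * b = 1 := congrArg Subtype.val hb
    have hbb' : (b' : Ω) = b := hbb
    have h2 : t * b' = 1 := by
      apply Subtype.ext
      change (t : Ω) * (b' : Ω) = 1
      rw [hbb', h1]
    apply htR'
    rw [← eq_inv_of_mul_eq_one_right h2]
    exact hb'
  obtain ⟨B, hB, hIB⟩ := Ideal.image_subset_nonunits_valuationSubring I hIne
  have hmem : (t : Ω) ∈ B.nonunits := hIB ⟨⟨_, hA t htR⟩, Ideal.subset_span rfl, rfl⟩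
  have hne0 : (t : Ω) ≠ 0 := fun h => ht0 (Subtype.ext h)
  have htB : (t : Ω)⁻¹ ∉ B := ((ValuationSubring.mem_nonunits_iff_or _).1 hmem).resolve_left hne0
  let v : Pt Ω := ⟨B, fun a => hB (hA (algebraMap ℂ K a) (P.const_mem a)), by
    intro htop
    apply htB
    rw [htop]
    trivial⟩
  refine ⟨v, ?_⟩
  apply CurvePt.ext'
  apply CurvePt.eq_of_le P _ (restr_ne_top hK v)
  intro z hz
  exact hB (hA z hz)

theorem restr_eq_iff {K : IntermediateField ℂ Ω} (hK : FF K) {v w : Pt Ω} :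
    restr hK v = restr hK w ↔ SameOn K v w := by
  constructor
  · intro h z hz
    have h1 := congrArg CurvePt.ring h
    have h2 : (⟨z, hz⟩ : K) ∈ (restr hK v).ring ↔ (⟨z, hz⟩ : K) ∈ (restr hK w).ring := by rw [h1]
    exact h2
  · intro h
    apply CurvePt.ext'
    ext z
    exact h z z.2

/-- the normalised order of `z ∈ K` at `v` (`0` if `z ∉ K` or `z = 0`) -/
noncomputable def ordO (v : Pt Ω) (K : IntermediateField ℂ Ω) (z : Ω) : ℤ := open Classical in
  if h : FF K ∧ z ∈ K then (restr h.1 v).ord ⟨z, h.2⟩ else 0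

theorem ordO_of_mem (v : Pt Ω) {K : IntermediateField ℂ Ω} (hK : FF K) {z : Ω} (hz : z ∈ K) :
    ordO v K z = (restr hK v).ord ⟨z, hz⟩ := by
  unfold ordO
  rw [dif_pos ⟨hK, hz⟩]

theorem ordO_of_not (v : Pt Ω) {K : IntermediateField ℂ Ω} {z : Ω} (hz : ¬(FF K ∧ z ∈ K)) :
    ordO v K z = 0 := by
  unfold ordO
  rw [dif_neg hz]

end

section
variable [CurveUniverse Ω]
variable {K K' : IntermediateField ℂ Ω} (v : Pt Ω)

theorem ordO_mul (hK : FF K) {z w : Ω} (hz : z ∈ K) (hw : w ∈ K) (hz0 : z ≠ 0) (hw0 : w ≠ 0) :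
    ordO v K (z * w) = ordO v K z + ordO v K w := by
  rw [ordO_of_mem v hK (K.mul_mem hz hw), ordO_of_mem v hK hz, ordO_of_mem v hK hw,
    ← CurvePt.ord_mul _ (fun h => hz0 (congrArg Subtype.val h))
      (fun h => hw0 (congrArg Subtype.val h))]
  rfl

theorem ordO_inv (hK : FF K) {z : Ω} (hz : z ∈ K) : ordO v K z⁻¹ = -ordO v K z := by
  rw [ordO_of_mem v hK (K.inv_mem hz), ordO_of_mem v hK hz, ← CurvePt.ord_inv]
  rfl

theorem ordO_algebraMap (c : ℂ) : ordO v K (algebraMap ℂ Ω c) = 0 := by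
  by_cases hK : FF K
  · rw [ordO_of_mem v hK (K.algebraMap_mem c)]
    exact CurvePt.ord_algebraMap (restr hK v) c
  · exact ordO_of_not v (fun h => hK h.1)

theorem ordO_zero : ordO v K 0 = 0 := by
  have := ordO_algebraMap (K := K) v 0
  rwa [map_zero] at this

theorem le_ordO_add (hK : FF K) {z w : Ω} (hz : z ∈ K) (hw : w ∈ K) (hzw : z + w ≠ 0) {n : ℤ}
    (h : z = 0 ∨ n ≤ ordO v K z) (h' : w = 0 ∨ n ≤ ordO v K w) : n ≤ ordO v K (z + w) := by
  rw [ordO_of_mem v hK hz] at h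
  rw [ordO_of_mem v hK hw] at h'
  rw [ordO_of_mem v hK (K.add_mem hz hw)]
  refine CurvePt.ord_add_ge (restr hK v) (f := ⟨z, hz⟩) (g := ⟨w, hw⟩)
    (fun h => hzw (congrArg Subtype.val h)) ?_ ?_
  · exact h.imp (fun h0 => Subtype.ext h0) id
  · exact h'.imp (fun h0 => Subtype.ext h0) id

theorem ordO_nonneg_iff (hK : FF K) {z : Ω} (hz : z ∈ K) (hz0 : z ≠ 0) :
    0 ≤ ordO v K z ↔ z ∈ v.ring := by
  rw [ordO_of_mem v hK hz, ← CurvePt.mem_ring_iff _ (fun h => hz0 (congrArg Subtype.val h))]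
  exact Iff.rfl

theorem ordO_pos_iff (hK : FF K) {z : Ω} (hz : z ∈ K) (hz0 : z ≠ 0) :
    0 < ordO v K z ↔ v.ring.valuation z < 1 := by
  rw [pt_lt_one_iff, or_iff_right hz0, ← ordO_nonneg_iff v hK (K.inv_mem hz) (inv_ne_zero hz0),
    ordO_inv v hK hz]
  omega

theorem exists_ordO_eq_one (hK : FF K) : ∃ π ∈ K, ordO v K π = 1 := by
  obtain ⟨t, _, ht⟩ := (restr hK v).exists_ord_eq_one
  exact ⟨t, t.2, by rw [ordO_of_mem v hK t.2]; exact ht⟩

theorem ordO_congr {w : Pt Ω} {z : Ω} (h : SameOn K v w) : ordO v K z = ordO w K z := by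
  by_cases hz : FF K ∧ z ∈ K
  · rw [ordO_of_mem v hz.1 hz.2, ordO_of_mem w hz.1 hz.2, (restr_eq_iff hz.1).2 h]
  · rw [ordO_of_not v hz, ordO_of_not w hz]

omit [CurveUniverse Ω] in
theorem FF.mapF {K : IntermediateField ℂ Ω} (hK : FF K) (g : Ω ≃ₐ[ℂ] Ω) : FF (mapF g K) := by
  constructor
  · obtain ⟨u, hu⟩ := hK.1
    classical
    refine ⟨u.image g, ?_⟩
    rw [Finset.coe_image, Pak.mapF, ← hu, adjoin_map]
    rfl
  · intro h
    apply hK.2
    rw [eq_bot_iff]
    intro z hz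
    have h1 : g z ∈ Pak.mapF g K := apply_mem_mapF.2 hz
    rw [h, IntermediateField.mem_bot] at h1
    obtain ⟨c, hc⟩ := h1
    rw [IntermediateField.mem_bot]
    exact ⟨c, g.injective (by rw [AlgEquiv.commutes]; exact hc)⟩

omit [CurveUniverse Ω] in
theorem ff_mapF_iff {K : IntermediateField ℂ Ω} (g : Ω ≃ₐ[ℂ] Ω) : FF (mapF g K) ↔ FF K := by
  constructor
  · intro h
    have h1 := h.mapF g.symm
    have h2 : mapF g.symm (mapF g K) = K := by
      ext z
      rw [mem_mapF, mem_mapF]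
      simp
    rwa [h2] at h1
  · intro h
    exact h.mapF g

theorem ordO_smul (g : Ω ≃ₐ[ℂ] Ω) (z : Ω) :
    ordO (g • v) (mapF g K) (g z) = ordO v K z := by
  by_cases hz : FF K ∧ z ∈ K
  · have hK' := hz.1.mapF g
    rw [ordO_of_mem v hz.1 hz.2, ordO_of_mem (g • v) hK' (apply_mem_mapF.2 hz.2)]
    have h1 := ord_equiv (restr hz.1 v) (restr hK' (g • v))
      (IntermediateField.intermediateFieldMap g K).toRingEquiv (by
        intro z
        change (z : Ω) ∈ v.ring ↔ g.symm (g z) ∈ v.ring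
        rw [g.symm_apply_apply]) ⟨z, hz.2⟩
    exact h1
  · rw [ordO_of_not v hz, ordO_of_not]
    rwa [ff_mapF_iff, apply_mem_mapF]

/-- ramification index as index of value groups -/
noncomputable def eV (v : Pt Ω) (K K' : IntermediateField ℂ Ω) : ℕ := open Classical in
  if h : ∃ π ∈ K, ordO v K π = 1 then (ordO v K' h.choose).toNat else 0

theorem ordO_pos_of_le (hK : FF K) (hK' : FF K') (h : K ≤ K') {z : Ω} (hz : z ∈ K)
    (hpos : 0 < ordO v K z) : 0 < ordO v K' z := by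
  have hz0 : z ≠ 0 := by
    rintro rfl
    rw [ordO_zero] at hpos
    exact lt_irrefl _ hpos
  rw [ordO_pos_iff v hK' (h hz) hz0]
  rwa [ordO_pos_iff v hK hz hz0] at hpos

theorem eV_spec (hK : FF K) (hK' : FF K') (h : K ≤ K') :
    ∃ π ∈ K, ordO v K π = 1 ∧ 0 < ordO v K' π ∧ (eV v K K' : ℤ) = ordO v K' π := by
  have hex := exists_ordO_eq_one v hK
  refine ⟨hex.choose, hex.choose_spec.1, hex.choose_spec.2, ?_, ?_⟩
  · exact ordO_pos_of_le v hK hK' h hex.choose_spec.1 (by rw [hex.choose_spec.2]; exact one_pos)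
  · unfold eV
    rw [dif_pos hex]
    apply Int.toNat_of_nonneg
    exact (ordO_pos_of_le v hK hK' h hex.choose_spec.1
      (by rw [hex.choose_spec.2]; exact one_pos)).le

theorem eV_pos (hK : FF K) (hK' : FF K') (h : K ≤ K') : 0 < eV v K K' := by
  obtain ⟨π, _, _, h1, h2⟩ := eV_spec v hK hK' h
  omega

theorem ordO_eq_eV_mul (hK : FF K) (hK' : FF K') (h : K ≤ K') {z : Ω} (hz : z ∈ K) :
    ordO v K' z = eV v K K' * ordO v K z := by
  obtain ⟨π, hπ, hπ1, _, h2⟩ := eV_spec v hK hK' h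
  rw [h2, ordO_of_mem v hK' (h hz), ordO_of_mem v hK' (h hπ), ordO_of_mem v hK hz]
  rw [ordO_of_mem v hK hπ] at hπ1
  have h3 := ord_comp_eq (restr hK v) (restr hK' v) (IntermediateField.inclusion h).toRingHom
    (fun z => Iff.rfl) hπ1 ⟨z, hz⟩
  rw [mul_comm]
  exact h3

/-- the places of `K` are the points of the curve -/
theorem bijective_restr (hK : FF K) :
    Function.Bijective (fun P : Pl K => restr hK P.pt) := by
  constructor
  · intro P Q h
    have h1 := (restr_eq_iff hK).1 h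
    rw [← Pl.mk_pt P, ← Pl.mk_pt Q]
    exact Pl.mk_eq_mk.2 h1
  · intro P
    obtain ⟨w, hw⟩ := restr_surjective hK P
    refine ⟨Pl.mk K w, ?_⟩
    change restr hK (Pl.mk K w).pt = P
    rw [← hw]
    exact (restr_eq_iff hK).2 (Pl.sameOn_pt_mk K w)

theorem restr_residue (hK : FF K) : ∀ z ∈ (restr hK v).ring,
    ∃ c : ℂ, z - algebraMap ℂ K c = 0 ∨ 0 < (restr hK v).ord (z - algebraMap ℂ K c) := by
  intro z hz
  obtain ⟨c, hc⟩ := pt_exists_residue v ((mem_restr_ring hK v z).1 hz)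
  refine ⟨c, ?_⟩
  by_cases h0 : z - algebraMap ℂ K c = 0
  · exact Or.inl h0
  · right
    have h1 : (z : Ω) - algebraMap ℂ Ω c ≠ 0 := fun h => h0 (Subtype.ext h)
    have h2 : (z : Ω) - algebraMap ℂ Ω c ∈ K := K.sub_mem z.2 (K.algebraMap_mem c)
    have h3 := (ordO_pos_iff v hK h2 h1).2 hc
    rw [ordO_of_mem v hK h2] at h3
    exact h3

theorem over_aux (hK : FF K) (hK' : FF K') (h : K ≤ K') :
    {P : Pl K' | SameOn K P.pt v}.Finite ∧
      ∑ᶠ P ∈ {P : Pl K' | SameOn K P.pt v}, (eV P.pt K K' : ℤ) = K.relfinrank K' := by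
  let _ := inclAlgebra h
  have hfd := finiteDimensional_inclAlgebra hK hK' h
  have htow : IsScalarTower ℂ K K' := IsScalarTower.of_algebraMap_eq fun c => rfl
  obtain ⟨t, ht0, ht⟩ := (restr hK v).exists_ord_eq_one
  obtain ⟨h1, h2⟩ := sum_over (F' := K') (restr hK v) ht (restr_residue v hK)
  have hbij := bijective_restr hK'
  have hiff : ∀ P : Pl K', SameOn K P.pt v ↔
      restr hK' P.pt ∈ {Q : CurvePt ℂ K' |
        ∀ z : K, z ∈ (restr hK v).ring ↔ algebraMap K K' z ∈ Q.ring} := by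
    intro P
    rw [Set.mem_ofPred_eq]
    constructor
    · intro hs z
      exact (hs z z.2).symm
    · intro hs z hz
      exact (hs ⟨z, hz⟩).symm
  have hB : Set.BijOn (fun P : Pl K' => restr hK' P.pt) {P : Pl K' | SameOn K P.pt v}
      {Q : CurvePt ℂ K' | ∀ z : K, z ∈ (restr hK v).ring ↔ algebraMap K K' z ∈ Q.ring} := by
    refine ⟨fun P hP => (hiff P).1 hP, hbij.1.injOn, ?_⟩
    intro Q hQ
    obtain ⟨P, rfl⟩ := hbij.2 Q
    exact ⟨P, (hiff P).2 hQ, rfl⟩
  refine ⟨?_, ?_⟩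
  · refine Set.Finite.of_finite_image ?_ hbij.1.injOn
    rw [hB.image_eq]
    exact h1
  · rw [← finrank_inclAlgebra h, ← h2]
    refine finsum_mem_eq_of_bijOn _ hB ?_
    intro P hP
    have hP' : SameOn K P.pt v := hP
    have h3 := ordO_eq_eV_mul P.pt hK hK' h t.2
    have h4 : ordO P.pt K t = 1 := by
      rw [ordO_congr P.pt hP', ordO_of_mem v hK t.2]
      exact ht
    rw [h4, mul_one, ordO_of_mem P.pt hK' (h t.2)] at h3
    exact h3.symm

theorem finite_over (hK : FF K) (hK' : FF K') (h : K ≤ K') :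
    {P : Pl K' | SameOn K P.pt v}.Finite := (over_aux v hK hK' h).1

/-- fundamental equality -/
theorem sum_eV (hK : FF K) (hK' : FF K') (h : K ≤ K') :
    ∑ᶠ P ∈ {P : Pl K' | SameOn K P.pt v}, eV P.pt K K' = K.relfinrank K' := by
  obtain ⟨h1, h2⟩ := over_aux v hK hK' h
  have h3 := AddMonoidHom.map_finsum_mem (fun P : Pl K' => eV P.pt K K')
    (Nat.castAddMonoidHom ℤ) h1
  have h4 : ((∑ᶠ P ∈ {P : Pl K' | SameOn K P.pt v}, eV P.pt K K' : ℕ) : ℤ) =
      (K.relfinrank K' : ℕ) := by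
    rw [← h2]
    exact h3
  exact_mod_cast h4

end

section
variable [CurveUniverse Ω]

/-- finitely many zeros and poles -/
theorem finite_ordO {K : IntermediateField ℂ Ω} (hK : FF K) (z : Ω) :
    {P : Pl K | ordO P.pt K z ≠ 0}.Finite := by
  by_cases hz : z ∈ K
  · have h1 := finite_support_ord hK.isCurveField (⟨z, hz⟩ : K)
    have h2 := h1.preimage (f := fun P : Pl K => restr hK P.pt) (bijective_restr hK).1.injOn
    refine h2.subset ?_
    intro P hP
    rw [Set.mem_ofPred_eq, ordO_of_mem _ hK hz] at hP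
    exact hP
  · have h1 : {P : Pl K | ordO P.pt K z ≠ 0} = ∅ := by
      ext P
      simp only [Set.mem_ofPred_eq, Set.mem_empty_iff_false, iff_false, not_not]
      exact ordO_of_not _ (fun h => hz h.2)
    rw [h1]
    exact Set.finite_empty

/-- product formula -/
theorem sum_ordO {K : IntermediateField ℂ Ω} (hK : FF K) (z : Ω) :
    ∑ᶠ P : Pl K, ordO P.pt K z = 0 := by
  by_cases hz : z ∈ K
  · rw [← sum_ord_eq_zero hK.isCurveField (⟨z, hz⟩ : K)]
    refine finsum_eq_of_bijective _ (bijective_restr hK) ?_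
    intro P
    rw [ordO_of_mem _ hK hz]
  · have h1 : (fun P : Pl K => ordO P.pt K z) = fun _ => 0 := by
      funext P
      exact ordO_of_not _ (fun h => hz h.2)
    rw [h1, finsum_zero]

/-- degree of the divisor of zeros -/
theorem sum_zeros_ordO {K : IntermediateField ℂ Ω} (hK : FF K) {z : Ω} (hz : z ∈ K)
    (ht : Transcendental ℂ z) :
    ∑ᶠ P ∈ {P : Pl K | 0 < ordO P.pt K z}, ordO P.pt K z = (ℂ⟮z⟯.relfinrank K : ℤ) := by
  have hz' : (⟨z, hz⟩ : K) ∉ Set.range (algebraMap ℂ K) := by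
    rintro ⟨c, hc⟩
    apply ht
    have h1 : z = algebraMap ℂ Ω c := (congrArg Subtype.val hc).symm
    rw [h1]
    exact isAlgebraic_algebraMap c
  have h1 := (sum_zeros hK.isCurveField hz').2
  have h2 := relfinrank_adjoin_eq_finrank (⟨z, hz⟩ : K)
  change ℂ⟮z⟯.relfinrank K = _ at h2
  rw [h2, ← h1]
  have hbij := bijective_restr hK
  refine finsum_mem_eq_of_bijOn (fun P : Pl K => restr hK P.pt) ⟨?_, hbij.1.injOn, ?_⟩ ?_
  · intro P hP
    rw [Set.mem_ofPred_eq, ordO_of_mem _ hK hz] at hP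
    exact hP
  · intro Q hQ
    obtain ⟨P, rfl⟩ := hbij.2 Q
    refine ⟨P, ?_, rfl⟩
    rw [Set.mem_ofPred_eq, ordO_of_mem _ hK hz]
    exact hQ
  · intro P _
    exact ordO_of_mem _ hK hz

end

end Pool.Agent.Helper63.Pak
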