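import Pool.Agent.Helper63.Pak.OrdEquiv
import Pool.Agent.Helper11.CurveDegree

/-! PT-B, abstract part: valuation rings of a function field are discrete; the fundamental
equality for a finite extension of function fields. -/

open Module IsDedekindDomain IntermediateField
open scoped IntermediateField.algebraAdjoinAdjoin

namespace Pool.Agent.Helper63.Pak

open Pool.Agent.Helper11

universe u

variable {k F : Type u} [Field k] [Field F] [Algebra k F]

section Ded

variable {S : Type u} [CommRing S] [IsDedekindDomain S] [Algebra S F] [IsFractionRing S F]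
  [Algebra k S] [IsScalarTower k S F]

/-- a valuation ring `V ≠ F` containing a Dedekind domain with fraction field `F` is the local
ring of a prime -/
lemma exists_prime_of_valuationSubring (V : ValuationSubring F) (hV : V ≠ ⊤)
    (h : ∀ s : S, algebraMap S F s ∈ V) :
    ∃ v : HeightOneSpectrum S, (ptOfPrime (k := k) v).ring = V := by
  let φ : S →+* V := (algebraMap S F).codRestrict V.toSubring h
  let q : Ideal S := (IsLocalRing.maximalIdeal V).comap φ
  have hmem : ∀ s : S, s ∈ q ↔ V.valuation (algebraMap S F s) < 1 := by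
    intro s
    have : s ∈ q ↔ φ s ∈ IsLocalRing.maximalIdeal V := Iff.rfl
    rw [this]
    exact V.valuation_lt_one_iff (φ s)
  have hqp : q.IsPrime := inferInstance
  have hle1 : ∀ s : S, V.valuation (algebraMap S F s) ≤ 1 := fun s =>
    (V.valuation_le_one_iff _).2 (h s)
  have hq0 : q ≠ ⊥ := by
    intro hq
    apply hV
    rw [eq_top_iff]
    intro z _
    obtain ⟨a, b, hb, rfl⟩ := IsFractionRing.div_surjective S z
    have hb0 : b ≠ 0 := nonZeroDivisors.ne_zero hb
    have hb1 : b ∉ q := by rw [hq]; simpa using hb0
    rw [hmem, not_lt] at hb1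
    rw [← V.valuation_le_one_iff, map_div₀]
    exact div_le_one_of_le₀ ((hle1 a).trans hb1) zero_le
  let v : HeightOneSpectrum S := ⟨q, hqp, hq0⟩
  refine ⟨v, ?_⟩
  symm
  apply CurvePt.eq_of_le (ptOfPrime (k := k) v) _ hV
  intro z hz
  have hz' : v.valuation F z ≤ 1 := hz
  obtain ⟨n, d, hnd⟩ := v.exists_primeCompl_mul_eq_of_integer z hz'
  have hd : ¬ V.valuation (algebraMap S F d) < 1 := fun hlt => d.2 ((hmem d).mpr hlt)
  have hd1 : V.valuation (algebraMap S F d) = 1 := le_antisymm (hle1 d) (not_lt.mp hd)
  rw [← V.valuation_le_one_iff]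
  have := congrArg V.valuation hnd
  rw [map_mul, hd1, mul_one] at this
  rw [this]
  exact hle1 n

end Ded

/-- elements integral over a subring of a valuation ring belong to the valuation ring -/
lemma mem_of_isIntegral {R A : Type*} [CommRing R] [Field A] [Algebra R A] (V : ValuationSubring A)
    (h : ∀ r : R, algebraMap R A r ∈ V) {z : A} (hz : IsIntegral R z) : z ∈ V := by
  let ψ : R →+* V := (algebraMap R A).codRestrict V.toSubring h
  let _ : Algebra R V := ψ.toAlgebra
  have : IsScalarTower R V A := IsScalarTower.of_algebraMap_eq fun r => rfl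
  have h2 : IsIntegral V z := hz.tower_top
  obtain ⟨y, hy⟩ := IsIntegrallyClosed.algebraMap_eq_of_integral h2
  rw [← hy]
  exact y.2

/-- a valuation ring `k ⊆ V ≠ F` of a function field is (discrete, hence) a point of the curve -/
lemma exists_curvePt_ring [IsAlgClosed k] [CharZero k] (hF : IsCurveField k F)
    (V : ValuationSubring F) (hk : ∀ c : k, algebraMap k F c ∈ V) (hV : V ≠ ⊤) :
    ∃ P : CurvePt k F, P.ring = V := by
  obtain ⟨y, hy⟩ : ∃ y : F, y ∉ V := by
    by_contra hcon
    push Not at hcon
    exact hV (top_unique fun z _ => hcon z)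
  have hy0 : y ≠ 0 := fun h => hy (h ▸ V.zero_mem)
  set x : F := y⁻¹ with hxdef
  have hxV : x ∈ V := (V.mem_or_inv_mem y).resolve_left hy
  have hx : x ∉ Set.range (algebraMap k F) := by
    rintro ⟨c, hc⟩
    apply hy
    have h1 : y = algebraMap k F c⁻¹ := by rw [map_inv₀, hc, hxdef, inv_inv]
    rw [h1]
    exact hk _
  have htr := transcendental_of_not_mem hx
  have := finiteDimensional_adjoin hF htr
  have : CharZero k⟮x⟯ := charZero_of_injective_algebraMap (algebraMap k k⟮x⟯).injective
  let R := Algebra.adjoin k {x}
  have : IsPrincipalIdealRing R :=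
    IsPrincipalIdealRing.of_surjective (Polynomial.algEquivOfTranscendental k x htr).toRingEquiv
      (Polynomial.algEquivOfTranscendental k x htr).surjective
  have : IsDedekindDomain R := inferInstance
  have : Algebra.IsSeparable k⟮x⟯ F := inferInstance
  let S := integralClosure R F
  have : IsFractionRing S F := integralClosure.isFractionRing_of_finite_extension k⟮x⟯ F
  have : IsDedekindDomain S := integralClosure.isDedekindDomain R k⟮x⟯ F
  have hRV : ∀ r : R, algebraMap R F r ∈ V := by
    intro r
    have hle : Algebra.adjoin k {x} ≤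
        ({ V.toSubring with algebraMap_mem' := hk } : Subalgebra k F) := by
      rw [Algebra.adjoin_le_iff, Set.singleton_subset_iff]
      exact hxV
    exact hle r.2
  obtain ⟨v, hv⟩ := exists_prime_of_valuationSubring (k := k) (S := S) V hV
    (fun s => mem_of_isIntegral V hRV (mem_integralClosure_iff R F |>.1 s.2))
  exact ⟨ptOfPrime (k := k) v, hv⟩

section SumAux

variable {R S : Type u} [CommRing R] [CommRing S] [IsDomain R] [IsDedekindDomain S]
  [Algebra R S] [Module.Finite R S] [Module.Free R S] [FaithfulSMul R S]
  [Algebra k R] [Algebra k S] [IsScalarTower k R S]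
  [Algebra R F] [Algebra S F] [IsScalarTower R S F] [IsScalarTower k S F] [IsFractionRing S F]

/-- variant of `sum_zeros_aux` (sum over the points lying over `R`) -/
lemma sum_over_aux [IsAlgClosed k] (x' : R) (hx' : x' ≠ 0) (hmax : (Ideal.span {x'}).IsMaximal)
    (hs : Function.Surjective (algebraMap k (R ⧸ Ideal.span {x'}))) :
    {P : CurvePt k F | (∀ r : R, algebraMap R F r ∈ P.ring) ∧
        0 < P.ord (algebraMap R F x')}.Finite ∧
      ∑ᶠ (P : CurvePt k F) (_ : P ∈ {P : CurvePt k F | (∀ r : R, algebraMap R F r ∈ P.ring) ∧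
        0 < P.ord (algebraMap R F x')}),
        P.ord (algebraMap R F x') = (finrank R S : ℤ) := by
  classical
  set p : Ideal R := Ideal.span {x'} with hp
  have hpb : p ≠ ⊥ := by simpa [p] using hx'
  have hmap : p.map (algebraMap R S) = Ideal.span {algebraMap R S x'} := by
    rw [Ideal.map_span, Set.image_singleton]
  have hinj : Function.Injective (algebraMap R S) := FaithfulSMul.algebraMap_injective R S
  have hxS : algebraMap R S x' ≠ 0 := fun h => hx' (hinj (by rw [h, map_zero]))
  have hmap0 : p.map (algebraMap R S) ≠ ⊥ := by rw [hmap]; simpa using hxS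
  have hfin : (p.primesOver S).Finite := IsDedekindDomain.primesOver_finite p S
  let _ : Fintype (p.primesOver S) := hfin.fintype
  have hsum := Ideal.sum_ramification_inertia_eq_finrank (S := S) p
  have hinert : ∀ q : p.primesOver S, q.1.inertiaDeg R = 1 := fun q =>
    inertiaDeg_eq_one_aux p hs q.1
  have hram : ∀ q : p.primesOver S, q.1.ramificationIdx R =
      multiplicity q.1 (Ideal.span {algebraMap R S x'}) := by
    intro q
    rw [← hmap]
    exact Ideal.IsDedekindDomain.ramificationIdx_eq_multiplicity p q.1 hmap0
  have hnb : ∀ q : p.primesOver S, q.1 ≠ ⊥ := fun q => Ideal.ne_bot_of_mem_primesOver hpb q.2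
  let e : p.primesOver S → CurvePt k F := fun q => ptOfPrime ⟨q.1, inferInstance, hnb q⟩
  have he : Function.Injective e := by
    intro q r hqr
    have := ptOfPrime_injective (k := k) hqr
    exact Subtype.ext (congrArg HeightOneSpectrum.asIdeal this)
  have hxF : algebraMap R F x' = algebraMap S F (algebraMap R S x') :=
    IsScalarTower.algebraMap_apply R S F x'
  have hord : ∀ q : p.primesOver S, (e q).ord (algebraMap R F x') =
      (q.1.ramificationIdx R : ℤ) := by
    intro q
    rw [hram q, hxF]
    exact ord_ptOfPrime_algebraMap (k := k) (F := F) ⟨q.1, inferInstance, hnb q⟩ hxS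
  have hxF0 : algebraMap R F x' ≠ 0 := by
    rw [hxF]
    intro h
    exact hxS ((IsFractionRing.injective S F) (by rw [h, map_zero]))
  have hrange : Set.range e = {P : CurvePt k F | (∀ r : R, algebraMap R F r ∈ P.ring) ∧
      0 < P.ord (algebraMap R F x')} := by
    ext P
    constructor
    · rintro ⟨q, rfl⟩
      rw [Set.mem_ofPred_eq, hord q]
      refine ⟨fun r => ?_, by exact_mod_cast Ideal.ramificationIdx_pos q.1 R⟩
      rw [IsScalarTower.algebraMap_apply R S F]
      change _ ∈ (HeightOneSpectrum.valuation F _).valuationSubring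
      rw [Valuation.mem_valuationSubring_iff]
      exact HeightOneSpectrum.valuation_le_one _ _
    · intro hP
      rw [Set.mem_ofPred_eq] at hP
      obtain ⟨hRP, hP⟩ := hP
      have hSP : ∀ s : S, algebraMap S F s ∈ P.ring := by
        intro s
        have h1 : IsIntegral R (algebraMap S F s) :=
          (Algebra.IsIntegral.isIntegral (R := R) s).map (IsScalarTower.toAlgHom R S F)
        exact mem_of_isIntegral P.ring hRP h1
      obtain ⟨v, rfl⟩ := exists_prime_of_le P hSP
      have hvx : algebraMap R S x' ∈ v.asIdeal := by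
        rw [hxF, ord_ptOfPrime_algebraMap v hxS] at hP
        have h3 : multiplicity v.asIdeal (Ideal.span {algebraMap R S x'}) ≠ 0 := by
          intro h0; rw [h0] at hP; simp at hP
        have h4 : v.asIdeal ∣ Ideal.span {algebraMap R S x'} := by
          by_contra hnd
          exact h3 (multiplicity_eq_zero.mpr hnd)
        exact Ideal.dvd_span_singleton.mp h4
      have hover : v.asIdeal.LiesOver p := by
        constructor
        apply hmax.eq_of_le
        · exact Ideal.IsPrime.ne_top inferInstance
        · rw [hp, Ideal.span_singleton_le_iff_mem]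
          exact hvx
      exact ⟨⟨v.asIdeal, v.isPrime, hover⟩, rfl⟩
  rw [← hrange]
  refine ⟨Set.finite_range e, ?_⟩
  rw [finsum_mem_range he, finsum_eq_sum_of_fintype, ← hsum]
  push_cast
  refine Finset.sum_congr rfl fun q _ => ?_
  rw [hord q, hinert q]
  simp

end SumAux

/-- **Fundamental equality** for a finite extension `F'/F` of function fields, and a point `P` of
`F` with uniformiser `t`. -/
theorem sum_over [IsAlgClosed k] [CharZero k] {F' : Type u} [Field F'] [Algebra k F']
    [Algebra F F'] [IsScalarTower k F F'] [FiniteDimensional F F'] (P : CurvePt k F) {t : F}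
    (ht : P.ord t = 1)
    (hres : ∀ z ∈ P.ring, ∃ c : k, z - algebraMap k F c = 0 ∨ 0 < P.ord (z - algebraMap k F c)) :
    {Q : CurvePt k F' | ∀ z : F, z ∈ P.ring ↔ algebraMap F F' z ∈ Q.ring}.Finite ∧
      ∑ᶠ (Q : CurvePt k F') (_ : Q ∈ {Q : CurvePt k F' |
        ∀ z : F, z ∈ P.ring ↔ algebraMap F F' z ∈ Q.ring}), Q.ord (algebraMap F F' t) =
        (finrank F F' : ℤ) := by
  classical
  have ht0 : t ≠ 0 := by
    rintro rfl
    simp at ht
  have htR : t ∈ P.ring := (P.mem_ring_iff ht0).2 (by omega)
  have hmul : ∀ z : F, z ∈ P.ring → 0 < P.ord z → z * t⁻¹ ∈ P.ring := by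
    intro z _ h1
    rcases eq_or_ne z 0 with rfl | hz0
    · rw [zero_mul]; exact P.ring.zero_mem
    · rw [P.mem_ring_iff (mul_ne_zero hz0 (inv_ne_zero ht0)), P.ord_mul hz0 (inv_ne_zero ht0),
        P.ord_inv, ht]
      omega
  let R := P.ring
  let _ : Algebra k R := ((algebraMap k F).codRestrict P.ring.toSubring P.const_mem).toAlgebra
  let _ : Algebra R F' := ((algebraMap F F').comp (algebraMap R F)).toAlgebra
  have : IsScalarTower R F F' := IsScalarTower.of_algebraMap_eq fun _ => rfl
  have : IsScalarTower k R F := IsScalarTower.of_algebraMap_eq fun _ => rfl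
  have : IsScalarTower k R F' := IsScalarTower.of_algebraMap_eq fun c => by
    rw [IsScalarTower.algebraMap_apply k F F', IsScalarTower.algebraMap_apply R F F']
    rfl
  have : CharZero F := charZero_of_injective_algebraMap (algebraMap k F).injective
  have : Algebra.IsSeparable F F' := inferInstance
  let S := integralClosure R F'
  have : IsFractionRing S F' := integralClosure.isFractionRing_of_finite_extension F F'
  have : IsDedekindDomain S := integralClosure.isDedekindDomain R F F'
  have : Module.Finite R S := IsIntegralClosure.finite R F F' S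
  have hinjRF : Function.Injective (algebraMap R F') :=
    (algebraMap F F').injective.comp (IsFractionRing.injective R F)
  have hfaith : FaithfulSMul R S := by
    rw [faithfulSMul_iff_algebraMap_injective]
    intro a b hab
    have h1 := congrArg (algebraMap S F') hab
    rw [← IsScalarTower.algebraMap_apply R S F', ← IsScalarTower.algebraMap_apply R S F'] at h1
    exact hinjRF h1
  have : Module.IsTorsionFree R S := inferInstance
  have : Module.Free R S := inferInstance
  let x' : R := ⟨t, htR⟩
  have hx'0 : x' ≠ 0 := fun h => ht0 (congrArg Subtype.val h)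
  have hsur : Function.Surjective (algebraMap k (R ⧸ Ideal.span {x'})) := by
    intro y
    obtain ⟨⟨y, hy⟩, rfl⟩ := Ideal.Quotient.mk_surjective y
    obtain ⟨c, hc⟩ := hres y hy
    refine ⟨c, ?_⟩
    rw [eq_comm, IsScalarTower.algebraMap_apply k R _, Ideal.Quotient.algebraMap_eq,
      Ideal.Quotient.eq, Ideal.mem_span_singleton]
    have hyc : y - algebraMap k F c ∈ P.ring := sub_mem hy (P.const_mem c)
    have h1 : (y - algebraMap k F c) * t⁻¹ ∈ P.ring := by
      rcases hc with h0 | h0
      · rw [h0, zero_mul]; exact P.ring.zero_mem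
      · exact hmul _ hyc h0
    refine ⟨⟨_, h1⟩, Subtype.ext ?_⟩
    change y - algebraMap k F c = t * ((y - algebraMap k F c) * t⁻¹)
    field_simp
  have hmax : (Ideal.span {x'}).IsMaximal := by
    have : Nontrivial (R ⧸ Ideal.span {x'}) := by
      rw [Ideal.Quotient.nontrivial_iff, Ne, Ideal.span_singleton_eq_top,
        isUnit_iff_exists_inv]
      rintro ⟨⟨b, hb⟩, hb'⟩
      have h1 : t * b = 1 := congrArg Subtype.val hb'
      have h2 : b = t⁻¹ := by
        field_simp
        rw [mul_comm]; exact h1
      rw [h2, P.mem_ring_iff (inv_ne_zero ht0), P.ord_inv, ht] at hb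
      omega
    have hbij : Function.Bijective (algebraMap k (R ⧸ Ideal.span {x'})) :=
      ⟨(algebraMap k (R ⧸ Ideal.span {x'})).injective, hsur⟩
    have hf : IsField (R ⧸ Ideal.span {x'}) :=
      (MulEquiv.isField (Field.toIsField k)
        (RingEquiv.ofBijective (algebraMap k (R ⧸ Ideal.span {x'})) hbij).symm.toMulEquiv)
    exact Ideal.Quotient.maximal_of_isField _ hf
  have hmain := sum_over_aux (k := k) (F := F') (S := S) x' hx'0 hmax hsur
  have hset : {Q : CurvePt k F' | (∀ r : R, algebraMap R F' r ∈ Q.ring) ∧
      0 < Q.ord (algebraMap R F' x')} =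
      {Q : CurvePt k F' | ∀ z : F, z ∈ P.ring ↔ algebraMap F F' z ∈ Q.ring} := by
    have hφt0 : algebraMap F F' t ≠ 0 := by simpa using ht0
    ext Q
    rw [Set.mem_ofPred_eq, Set.mem_ofPred_eq]
    constructor
    · rintro ⟨h1, h2⟩ z
      have h3 : (Q.ring.comap (algebraMap F F')) = P.ring := by
        apply CurvePt.eq_of_le P
        · intro w hw
          exact h1 ⟨w, hw⟩
        · intro htop
          have h4 : t⁻¹ ∈ Q.ring.comap (algebraMap F F') := by rw [htop]; trivial
          rw [ValuationSubring.mem_comap, map_inv₀, Q.mem_ring_iff (inv_ne_zero hφt0),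
            Q.ord_inv] at h4
          have h5 : (0 : ℤ) < Q.ord (algebraMap F F' t) := h2
          omega
      rw [← h3]
      exact Iff.rfl
    · intro h
      refine ⟨fun r => (h r.1).1 r.2, ?_⟩
      change 0 < Q.ord (algebraMap F F' t)
      have h1 : 0 ≤ Q.ord (algebraMap F F' t) := (Q.mem_ring_iff hφt0).1 ((h t).1 htR)
      by_contra h2
      have h3 : Q.ord (algebraMap F F' t) = 0 := by omega
      have h4 : algebraMap F F' t⁻¹ ∈ Q.ring := by
        rw [map_inv₀, Q.mem_ring_iff (inv_ne_zero hφt0), Q.ord_inv, h3, neg_zero]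
      have h5 := (h t⁻¹).2 h4
      rw [P.mem_ring_iff (inv_ne_zero ht0), P.ord_inv, ht] at h5
      omega
  have hfr : finrank R S = finrank F F' := (IsFractionRing.finrank_eq R F S F').symm
  rw [hfr, hset] at hmain
  exact hmain

end Pool.Agent.Helper63.Pak
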